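import Pool.Agent.V1139.Enum.Perm

set_option autoImplicit false

open Pool.Agent.V1139.Enum

namespace Pool.Agent.V1139.Enum.Agree7

def lt01 (a b : Fin 7) : ℕ := bif Nat.blt a.val b.val then 1 else 0

/-- Number of agreeing pairs, from the list `[a6, ..., a0]` of values. -/
def ag : List (Fin 7) → ℕ
  | [a6, a5, a4, a3, a2, a1, a0] =>
    lt01 a2 a3 + lt01 a0 a4 + lt01 a2 a4 + lt01 a3 a4 + lt01 a1 a5 + lt01 a2 a5 + lt01 a3 a5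
      + lt01 a0 a6 + lt01 a1 a6 + lt01 a2 a6
  | _ => 0

def F (i : ℕ) (l : List (Fin 7)) : ℕ := if Nat.beq (ag l) i = true then 1 else 0

theorem fr : List.finRange 7 = [0, 1, 2, 3, 4, 5, 6] := by decide

theorem step (k : ℕ) (U : List (Fin 7)) (G : List (Fin 7) → ℕ) (t : Fin 7 → ℕ)
    (h0 : ∀ a, (U.any (fun b => Nat.beq b.val a.val) = true ∧ t a = 0) ∨
      (U.any (fun b => Nat.beq b.val a.val) = false ∧ T 7 k (a :: U) G = t a)) :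
    T 7 (k + 1) U G = t 0 + t 1 + t 2 + t 3 + t 4 + t 5 + t 6 := by
  have h : ∀ a, (bif U.any (fun b => Nat.beq b.val a.val) then 0 else T 7 k (a :: U) G) = t a := by
    intro a
    rcases h0 a with ⟨h1, h2⟩ | ⟨h1, h2⟩
    · rw [h1, h2, cond_true]
    · rw [h1, h2, cond_false]
  rw [T, fr]
  simp only [List.map, h, List.sum_cons, List.sum_nil]
  ring

theorem c4_0_1 : T 7 5 [1, 0] (F 4) = 8 := by decide +kernel

theorem c4_0_2 : T 7 5 [2, 0] (F 4) = 13 := by decide +kernel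

theorem c4_0_3 : T 7 5 [3, 0] (F 4) = 14 := by decide +kernel

theorem c4_0_4 : T 7 5 [4, 0] (F 4) = 15 := by decide +kernel

theorem c4_0_5 : T 7 5 [5, 0] (F 4) = 19 := by decide +kernel

theorem c4_0_6 : T 7 5 [6, 0] (F 4) = 24 := by decide +kernel

theorem c4_0 : T 7 6 [0] (F 4) = 93 := by
  rw [step 5 [0] (F 4) ![0, 8, 13, 14, 15, 19, 24] (by
    intro a
    fin_cases a
    · exact Or.inl ⟨rfl, rfl⟩
    · exact Or.inr ⟨rfl, c4_0_1⟩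
    · exact Or.inr ⟨rfl, c4_0_2⟩
    · exact Or.inr ⟨rfl, c4_0_3⟩
    · exact Or.inr ⟨rfl, c4_0_4⟩
    · exact Or.inr ⟨rfl, c4_0_5⟩
    · exact Or.inr ⟨rfl, c4_0_6⟩
    )]
  rfl

theorem c4_1_0 : T 7 5 [0, 1] (F 4) = 8 := by decide +kernel

theorem c4_1_2 : T 7 5 [2, 1] (F 4) = 18 := by decide +kernel

theorem c4_1_3 : T 7 5 [3, 1] (F 4) = 17 := by decide +kernel

theorem c4_1_4 : T 7 5 [4, 1] (F 4) = 19 := by decide +kernel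

theorem c4_1_5 : T 7 5 [5, 1] (F 4) = 22 := by decide +kernel

theorem c4_1_6 : T 7 5 [6, 1] (F 4) = 24 := by decide +kernel

theorem c4_1 : T 7 6 [1] (F 4) = 108 := by
  rw [step 5 [1] (F 4) ![8, 0, 18, 17, 19, 22, 24] (by
    intro a
    fin_cases a
    · exact Or.inr ⟨rfl, c4_1_0⟩
    · exact Or.inl ⟨rfl, rfl⟩
    · exact Or.inr ⟨rfl, c4_1_2⟩
    · exact Or.inr ⟨rfl, c4_1_3⟩
    · exact Or.inr ⟨rfl, c4_1_4⟩
    · exact Or.inr ⟨rfl, c4_1_5⟩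
    · exact Or.inr ⟨rfl, c4_1_6⟩
    )]
  rfl

theorem c4_2_0 : T 7 5 [0, 2] (F 4) = 13 := by decide +kernel

theorem c4_2_1 : T 7 5 [1, 2] (F 4) = 18 := by decide +kernel

theorem c4_2_3 : T 7 5 [3, 2] (F 4) = 16 := by decide +kernel

theorem c4_2_4 : T 7 5 [4, 2] (F 4) = 20 := by decide +kernel

theorem c4_2_5 : T 7 5 [5, 2] (F 4) = 17 := by decide +kernel

theorem c4_2_6 : T 7 5 [6, 2] (F 4) = 19 := by decide +kernel

theorem c4_2 : T 7 6 [2] (F 4) = 103 := by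
  rw [step 5 [2] (F 4) ![13, 18, 0, 16, 20, 17, 19] (by
    intro a
    fin_cases a
    · exact Or.inr ⟨rfl, c4_2_0⟩
    · exact Or.inr ⟨rfl, c4_2_1⟩
    · exact Or.inl ⟨rfl, rfl⟩
    · exact Or.inr ⟨rfl, c4_2_3⟩
    · exact Or.inr ⟨rfl, c4_2_4⟩
    · exact Or.inr ⟨rfl, c4_2_5⟩
    · exact Or.inr ⟨rfl, c4_2_6⟩
    )]
  rfl

theorem c4_3_0 : T 7 5 [0, 3] (F 4) = 14 := by decide +kernel

theorem c4_3_1 : T 7 5 [1, 3] (F 4) = 17 := by decide +kernel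

theorem c4_3_2 : T 7 5 [2, 3] (F 4) = 16 := by decide +kernel

theorem c4_3_4 : T 7 5 [4, 3] (F 4) = 22 := by decide +kernel

theorem c4_3_5 : T 7 5 [5, 3] (F 4) = 20 := by decide +kernel

theorem c4_3_6 : T 7 5 [6, 3] (F 4) = 19 := by decide +kernel

theorem c4_3 : T 7 6 [3] (F 4) = 108 := by
  rw [step 5 [3] (F 4) ![14, 17, 16, 0, 22, 20, 19] (by
    intro a
    fin_cases a
    · exact Or.inr ⟨rfl, c4_3_0⟩
    · exact Or.inr ⟨rfl, c4_3_1⟩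
    · exact Or.inr ⟨rfl, c4_3_2⟩
    · exact Or.inl ⟨rfl, rfl⟩
    · exact Or.inr ⟨rfl, c4_3_4⟩
    · exact Or.inr ⟨rfl, c4_3_5⟩
    · exact Or.inr ⟨rfl, c4_3_6⟩
    )]
  rfl

theorem c4_4_0 : T 7 5 [0, 4] (F 4) = 15 := by decide +kernel

theorem c4_4_1 : T 7 5 [1, 4] (F 4) = 19 := by decide +kernel

theorem c4_4_2 : T 7 5 [2, 4] (F 4) = 20 := by decide +kernel

theorem c4_4_3 : T 7 5 [3, 4] (F 4) = 22 := by decide +kernel

theorem c4_4_5 : T 7 5 [5, 4] (F 4) = 22 := by decide +kernel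

theorem c4_4_6 : T 7 5 [6, 4] (F 4) = 24 := by decide +kernel

theorem c4_4 : T 7 6 [4] (F 4) = 122 := by
  rw [step 5 [4] (F 4) ![15, 19, 20, 22, 0, 22, 24] (by
    intro a
    fin_cases a
    · exact Or.inr ⟨rfl, c4_4_0⟩
    · exact Or.inr ⟨rfl, c4_4_1⟩
    · exact Or.inr ⟨rfl, c4_4_2⟩
    · exact Or.inr ⟨rfl, c4_4_3⟩
    · exact Or.inl ⟨rfl, rfl⟩
    · exact Or.inr ⟨rfl, c4_4_5⟩
    · exact Or.inr ⟨rfl, c4_4_6⟩
    )]
  rfl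

theorem c4_5_0 : T 7 5 [0, 5] (F 4) = 19 := by decide +kernel

theorem c4_5_1 : T 7 5 [1, 5] (F 4) = 22 := by decide +kernel

theorem c4_5_2 : T 7 5 [2, 5] (F 4) = 17 := by decide +kernel

theorem c4_5_3 : T 7 5 [3, 5] (F 4) = 20 := by decide +kernel

theorem c4_5_4 : T 7 5 [4, 5] (F 4) = 22 := by decide +kernel

theorem c4_5_6 : T 7 5 [6, 5] (F 4) = 24 := by decide +kernel

theorem c4_5 : T 7 6 [5] (F 4) = 124 := by
  rw [step 5 [5] (F 4) ![19, 22, 17, 20, 22, 0, 24] (by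
    intro a
    fin_cases a
    · exact Or.inr ⟨rfl, c4_5_0⟩
    · exact Or.inr ⟨rfl, c4_5_1⟩
    · exact Or.inr ⟨rfl, c4_5_2⟩
    · exact Or.inr ⟨rfl, c4_5_3⟩
    · exact Or.inr ⟨rfl, c4_5_4⟩
    · exact Or.inl ⟨rfl, rfl⟩
    · exact Or.inr ⟨rfl, c4_5_6⟩
    )]
  rfl

theorem c4_6_0 : T 7 5 [0, 6] (F 4) = 24 := by decide +kernel

theorem c4_6_1 : T 7 5 [1, 6] (F 4) = 24 := by decide +kernel

theorem c4_6_2 : T 7 5 [2, 6] (F 4) = 19 := by decide +kernel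

theorem c4_6_3 : T 7 5 [3, 6] (F 4) = 19 := by decide +kernel

theorem c4_6_4 : T 7 5 [4, 6] (F 4) = 24 := by decide +kernel

theorem c4_6_5 : T 7 5 [5, 6] (F 4) = 24 := by decide +kernel

theorem c4_6 : T 7 6 [6] (F 4) = 134 := by
  rw [step 5 [6] (F 4) ![24, 24, 19, 19, 24, 24, 0] (by
    intro a
    fin_cases a
    · exact Or.inr ⟨rfl, c4_6_0⟩
    · exact Or.inr ⟨rfl, c4_6_1⟩
    · exact Or.inr ⟨rfl, c4_6_2⟩
    · exact Or.inr ⟨rfl, c4_6_3⟩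
    · exact Or.inr ⟨rfl, c4_6_4⟩
    · exact Or.inr ⟨rfl, c4_6_5⟩
    · exact Or.inl ⟨rfl, rfl⟩
    )]
  rfl

theorem c4 : T 7 7 [] (F 4) = 792 := by
  rw [step 6 [] (F 4) ![93, 108, 103, 108, 122, 124, 134] (by
    intro a
    fin_cases a
    · exact Or.inr ⟨rfl, c4_0⟩
    · exact Or.inr ⟨rfl, c4_1⟩
    · exact Or.inr ⟨rfl, c4_2⟩
    · exact Or.inr ⟨rfl, c4_3⟩
    · exact Or.inr ⟨rfl, c4_4⟩
    · exact Or.inr ⟨rfl, c4_5⟩
    · exact Or.inr ⟨rfl, c4_6⟩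
    )]
  rfl

theorem c5_0_1 : T 7 5 [1, 0] (F 5) = 16 := by decide +kernel

theorem c5_0_2 : T 7 5 [2, 0] (F 5) = 18 := by decide +kernel

theorem c5_0_3 : T 7 5 [3, 0] (F 5) = 20 := by decide +kernel

theorem c5_0_4 : T 7 5 [4, 0] (F 5) = 23 := by decide +kernel

theorem c5_0_5 : T 7 5 [5, 0] (F 5) = 19 := by decide +kernel

theorem c5_0_6 : T 7 5 [6, 0] (F 5) = 24 := by decide +kernel

theorem c5_0 : T 7 6 [0] (F 5) = 120 := by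
  rw [step 5 [0] (F 5) ![0, 16, 18, 20, 23, 19, 24] (by
    intro a
    fin_cases a
    · exact Or.inl ⟨rfl, rfl⟩
    · exact Or.inr ⟨rfl, c5_0_1⟩
    · exact Or.inr ⟨rfl, c5_0_2⟩
    · exact Or.inr ⟨rfl, c5_0_3⟩
    · exact Or.inr ⟨rfl, c5_0_4⟩
    · exact Or.inr ⟨rfl, c5_0_5⟩
    · exact Or.inr ⟨rfl, c5_0_6⟩
    )]
  rfl

theorem c5_1_0 : T 7 5 [0, 1] (F 5) = 16 := by decide +kernel

theorem c5_1_2 : T 7 5 [2, 1] (F 5) = 18 := by decide +kernel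

theorem c5_1_3 : T 7 5 [3, 1] (F 5) = 17 := by decide +kernel

theorem c5_1_4 : T 7 5 [4, 1] (F 5) = 19 := by decide +kernel

theorem c5_1_5 : T 7 5 [5, 1] (F 5) = 16 := by decide +kernel

theorem c5_1_6 : T 7 5 [6, 1] (F 5) = 19 := by decide +kernel

theorem c5_1 : T 7 6 [1] (F 5) = 105 := by
  rw [step 5 [1] (F 5) ![16, 0, 18, 17, 19, 16, 19] (by
    intro a
    fin_cases a
    · exact Or.inr ⟨rfl, c5_1_0⟩
    · exact Or.inl ⟨rfl, rfl⟩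
    · exact Or.inr ⟨rfl, c5_1_2⟩
    · exact Or.inr ⟨rfl, c5_1_3⟩
    · exact Or.inr ⟨rfl, c5_1_4⟩
    · exact Or.inr ⟨rfl, c5_1_5⟩
    · exact Or.inr ⟨rfl, c5_1_6⟩
    )]
  rfl

theorem c5_2_0 : T 7 5 [0, 2] (F 5) = 18 := by decide +kernel

theorem c5_2_1 : T 7 5 [1, 2] (F 5) = 18 := by decide +kernel

theorem c5_2_3 : T 7 5 [3, 2] (F 5) = 14 := by decide +kernel

theorem c5_2_4 : T 7 5 [4, 2] (F 5) = 14 := by decide +kernel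

theorem c5_2_5 : T 7 5 [5, 2] (F 5) = 19 := by decide +kernel

theorem c5_2_6 : T 7 5 [6, 2] (F 5) = 23 := by decide +kernel

theorem c5_2 : T 7 6 [2] (F 5) = 106 := by
  rw [step 5 [2] (F 5) ![18, 18, 0, 14, 14, 19, 23] (by
    intro a
    fin_cases a
    · exact Or.inr ⟨rfl, c5_2_0⟩
    · exact Or.inr ⟨rfl, c5_2_1⟩
    · exact Or.inl ⟨rfl, rfl⟩
    · exact Or.inr ⟨rfl, c5_2_3⟩
    · exact Or.inr ⟨rfl, c5_2_4⟩
    · exact Or.inr ⟨rfl, c5_2_5⟩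
    · exact Or.inr ⟨rfl, c5_2_6⟩
    )]
  rfl

theorem c5_3_0 : T 7 5 [0, 3] (F 5) = 20 := by decide +kernel

theorem c5_3_1 : T 7 5 [1, 3] (F 5) = 17 := by decide +kernel

theorem c5_3_2 : T 7 5 [2, 3] (F 5) = 14 := by decide +kernel

theorem c5_3_4 : T 7 5 [4, 3] (F 5) = 14 := by decide +kernel

theorem c5_3_5 : T 7 5 [5, 3] (F 5) = 17 := by decide +kernel

theorem c5_3_6 : T 7 5 [6, 3] (F 5) = 20 := by decide +kernel

theorem c5_3 : T 7 6 [3] (F 5) = 102 := by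
  rw [step 5 [3] (F 5) ![20, 17, 14, 0, 14, 17, 20] (by
    intro a
    fin_cases a
    · exact Or.inr ⟨rfl, c5_3_0⟩
    · exact Or.inr ⟨rfl, c5_3_1⟩
    · exact Or.inr ⟨rfl, c5_3_2⟩
    · exact Or.inl ⟨rfl, rfl⟩
    · exact Or.inr ⟨rfl, c5_3_4⟩
    · exact Or.inr ⟨rfl, c5_3_5⟩
    · exact Or.inr ⟨rfl, c5_3_6⟩
    )]
  rfl

theorem c5_4_0 : T 7 5 [0, 4] (F 5) = 23 := by decide +kernel

theorem c5_4_1 : T 7 5 [1, 4] (F 5) = 19 := by decide +kernel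

theorem c5_4_2 : T 7 5 [2, 4] (F 5) = 14 := by decide +kernel

theorem c5_4_3 : T 7 5 [3, 4] (F 5) = 14 := by decide +kernel

theorem c5_4_5 : T 7 5 [5, 4] (F 5) = 18 := by decide +kernel

theorem c5_4_6 : T 7 5 [6, 4] (F 5) = 18 := by decide +kernel

theorem c5_4 : T 7 6 [4] (F 5) = 106 := by
  rw [step 5 [4] (F 5) ![23, 19, 14, 14, 0, 18, 18] (by
    intro a
    fin_cases a
    · exact Or.inr ⟨rfl, c5_4_0⟩
    · exact Or.inr ⟨rfl, c5_4_1⟩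
    · exact Or.inr ⟨rfl, c5_4_2⟩
    · exact Or.inr ⟨rfl, c5_4_3⟩
    · exact Or.inl ⟨rfl, rfl⟩
    · exact Or.inr ⟨rfl, c5_4_5⟩
    · exact Or.inr ⟨rfl, c5_4_6⟩
    )]
  rfl

theorem c5_5_0 : T 7 5 [0, 5] (F 5) = 19 := by decide +kernel

theorem c5_5_1 : T 7 5 [1, 5] (F 5) = 16 := by decide +kernel

theorem c5_5_2 : T 7 5 [2, 5] (F 5) = 19 := by decide +kernel

theorem c5_5_3 : T 7 5 [3, 5] (F 5) = 17 := by decide +kernel

theorem c5_5_4 : T 7 5 [4, 5] (F 5) = 18 := by decide +kernel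

theorem c5_5_6 : T 7 5 [6, 5] (F 5) = 16 := by decide +kernel

theorem c5_5 : T 7 6 [5] (F 5) = 105 := by
  rw [step 5 [5] (F 5) ![19, 16, 19, 17, 18, 0, 16] (by
    intro a
    fin_cases a
    · exact Or.inr ⟨rfl, c5_5_0⟩
    · exact Or.inr ⟨rfl, c5_5_1⟩
    · exact Or.inr ⟨rfl, c5_5_2⟩
    · exact Or.inr ⟨rfl, c5_5_3⟩
    · exact Or.inr ⟨rfl, c5_5_4⟩
    · exact Or.inl ⟨rfl, rfl⟩
    · exact Or.inr ⟨rfl, c5_5_6⟩
    )]
  rfl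

theorem c5_6_0 : T 7 5 [0, 6] (F 5) = 24 := by decide +kernel

theorem c5_6_1 : T 7 5 [1, 6] (F 5) = 19 := by decide +kernel

theorem c5_6_2 : T 7 5 [2, 6] (F 5) = 23 := by decide +kernel

theorem c5_6_3 : T 7 5 [3, 6] (F 5) = 20 := by decide +kernel

theorem c5_6_4 : T 7 5 [4, 6] (F 5) = 18 := by decide +kernel

theorem c5_6_5 : T 7 5 [5, 6] (F 5) = 16 := by decide +kernel

theorem c5_6 : T 7 6 [6] (F 5) = 120 := by
  rw [step 5 [6] (F 5) ![24, 19, 23, 20, 18, 16, 0] (by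
    intro a
    fin_cases a
    · exact Or.inr ⟨rfl, c5_6_0⟩
    · exact Or.inr ⟨rfl, c5_6_1⟩
    · exact Or.inr ⟨rfl, c5_6_2⟩
    · exact Or.inr ⟨rfl, c5_6_3⟩
    · exact Or.inr ⟨rfl, c5_6_4⟩
    · exact Or.inr ⟨rfl, c5_6_5⟩
    · exact Or.inl ⟨rfl, rfl⟩
    )]
  rfl

theorem c5 : T 7 7 [] (F 5) = 764 := by
  rw [step 6 [] (F 5) ![120, 105, 106, 102, 106, 105, 120] (by
    intro a
    fin_cases a
    · exact Or.inr ⟨rfl, c5_0⟩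
    · exact Or.inr ⟨rfl, c5_1⟩
    · exact Or.inr ⟨rfl, c5_2⟩
    · exact Or.inr ⟨rfl, c5_3⟩
    · exact Or.inr ⟨rfl, c5_4⟩
    · exact Or.inr ⟨rfl, c5_5⟩
    · exact Or.inr ⟨rfl, c5_6⟩
    )]
  rfl

theorem c6_0_1 : T 7 5 [1, 0] (F 6) = 24 := by decide +kernel

theorem c6_0_2 : T 7 5 [2, 0] (F 6) = 24 := by decide +kernel

theorem c6_0_3 : T 7 5 [3, 0] (F 6) = 19 := by decide +kernel

theorem c6_0_4 : T 7 5 [4, 0] (F 6) = 19 := by decide +kernel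

theorem c6_0_5 : T 7 5 [5, 0] (F 6) = 24 := by decide +kernel

theorem c6_0_6 : T 7 5 [6, 0] (F 6) = 24 := by decide +kernel

theorem c6_0 : T 7 6 [0] (F 6) = 134 := by
  rw [step 5 [0] (F 6) ![0, 24, 24, 19, 19, 24, 24] (by
    intro a
    fin_cases a
    · exact Or.inl ⟨rfl, rfl⟩
    · exact Or.inr ⟨rfl, c6_0_1⟩
    · exact Or.inr ⟨rfl, c6_0_2⟩
    · exact Or.inr ⟨rfl, c6_0_3⟩
    · exact Or.inr ⟨rfl, c6_0_4⟩
    · exact Or.inr ⟨rfl, c6_0_5⟩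
    · exact Or.inr ⟨rfl, c6_0_6⟩
    )]
  rfl

theorem c6_1_0 : T 7 5 [0, 1] (F 6) = 24 := by decide +kernel

theorem c6_1_2 : T 7 5 [2, 1] (F 6) = 22 := by decide +kernel

theorem c6_1_3 : T 7 5 [3, 1] (F 6) = 20 := by decide +kernel

theorem c6_1_4 : T 7 5 [4, 1] (F 6) = 17 := by decide +kernel

theorem c6_1_5 : T 7 5 [5, 1] (F 6) = 22 := by decide +kernel

theorem c6_1_6 : T 7 5 [6, 1] (F 6) = 19 := by decide +kernel

theorem c6_1 : T 7 6 [1] (F 6) = 124 := by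
  rw [step 5 [1] (F 6) ![24, 0, 22, 20, 17, 22, 19] (by
    intro a
    fin_cases a
    · exact Or.inr ⟨rfl, c6_1_0⟩
    · exact Or.inl ⟨rfl, rfl⟩
    · exact Or.inr ⟨rfl, c6_1_2⟩
    · exact Or.inr ⟨rfl, c6_1_3⟩
    · exact Or.inr ⟨rfl, c6_1_4⟩
    · exact Or.inr ⟨rfl, c6_1_5⟩
    · exact Or.inr ⟨rfl, c6_1_6⟩
    )]
  rfl

theorem c6_2_0 : T 7 5 [0, 2] (F 6) = 24 := by decide +kernel

theorem c6_2_1 : T 7 5 [1, 2] (F 6) = 22 := by decide +kernel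

theorem c6_2_3 : T 7 5 [3, 2] (F 6) = 22 := by decide +kernel

theorem c6_2_4 : T 7 5 [4, 2] (F 6) = 20 := by decide +kernel

theorem c6_2_5 : T 7 5 [5, 2] (F 6) = 19 := by decide +kernel

theorem c6_2_6 : T 7 5 [6, 2] (F 6) = 15 := by decide +kernel

theorem c6_2 : T 7 6 [2] (F 6) = 122 := by
  rw [step 5 [2] (F 6) ![24, 22, 0, 22, 20, 19, 15] (by
    intro a
    fin_cases a
    · exact Or.inr ⟨rfl, c6_2_0⟩
    · exact Or.inr ⟨rfl, c6_2_1⟩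
    · exact Or.inl ⟨rfl, rfl⟩
    · exact Or.inr ⟨rfl, c6_2_3⟩
    · exact Or.inr ⟨rfl, c6_2_4⟩
    · exact Or.inr ⟨rfl, c6_2_5⟩
    · exact Or.inr ⟨rfl, c6_2_6⟩
    )]
  rfl

theorem c6_3_0 : T 7 5 [0, 3] (F 6) = 19 := by decide +kernel

theorem c6_3_1 : T 7 5 [1, 3] (F 6) = 20 := by decide +kernel

theorem c6_3_2 : T 7 5 [2, 3] (F 6) = 22 := by decide +kernel

theorem c6_3_4 : T 7 5 [4, 3] (F 6) = 16 := by decide +kernel

theorem c6_3_5 : T 7 5 [5, 3] (F 6) = 17 := by decide +kernel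

theorem c6_3_6 : T 7 5 [6, 3] (F 6) = 14 := by decide +kernel

theorem c6_3 : T 7 6 [3] (F 6) = 108 := by
  rw [step 5 [3] (F 6) ![19, 20, 22, 0, 16, 17, 14] (by
    intro a
    fin_cases a
    · exact Or.inr ⟨rfl, c6_3_0⟩
    · exact Or.inr ⟨rfl, c6_3_1⟩
    · exact Or.inr ⟨rfl, c6_3_2⟩
    · exact Or.inl ⟨rfl, rfl⟩
    · exact Or.inr ⟨rfl, c6_3_4⟩
    · exact Or.inr ⟨rfl, c6_3_5⟩
    · exact Or.inr ⟨rfl, c6_3_6⟩
    )]
  rfl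

theorem c6_4_0 : T 7 5 [0, 4] (F 6) = 19 := by decide +kernel

theorem c6_4_1 : T 7 5 [1, 4] (F 6) = 17 := by decide +kernel

theorem c6_4_2 : T 7 5 [2, 4] (F 6) = 20 := by decide +kernel

theorem c6_4_3 : T 7 5 [3, 4] (F 6) = 16 := by decide +kernel

theorem c6_4_5 : T 7 5 [5, 4] (F 6) = 18 := by decide +kernel

theorem c6_4_6 : T 7 5 [6, 4] (F 6) = 13 := by decide +kernel

theorem c6_4 : T 7 6 [4] (F 6) = 103 := by
  rw [step 5 [4] (F 6) ![19, 17, 20, 16, 0, 18, 13] (by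
    intro a
    fin_cases a
    · exact Or.inr ⟨rfl, c6_4_0⟩
    · exact Or.inr ⟨rfl, c6_4_1⟩
    · exact Or.inr ⟨rfl, c6_4_2⟩
    · exact Or.inr ⟨rfl, c6_4_3⟩
    · exact Or.inl ⟨rfl, rfl⟩
    · exact Or.inr ⟨rfl, c6_4_5⟩
    · exact Or.inr ⟨rfl, c6_4_6⟩
    )]
  rfl

theorem c6_5_0 : T 7 5 [0, 5] (F 6) = 24 := by decide +kernel

theorem c6_5_1 : T 7 5 [1, 5] (F 6) = 22 := by decide +kernel

theorem c6_5_2 : T 7 5 [2, 5] (F 6) = 19 := by decide +kernel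

theorem c6_5_3 : T 7 5 [3, 5] (F 6) = 17 := by decide +kernel

theorem c6_5_4 : T 7 5 [4, 5] (F 6) = 18 := by decide +kernel

theorem c6_5_6 : T 7 5 [6, 5] (F 6) = 8 := by decide +kernel

theorem c6_5 : T 7 6 [5] (F 6) = 108 := by
  rw [step 5 [5] (F 6) ![24, 22, 19, 17, 18, 0, 8] (by
    intro a
    fin_cases a
    · exact Or.inr ⟨rfl, c6_5_0⟩
    · exact Or.inr ⟨rfl, c6_5_1⟩
    · exact Or.inr ⟨rfl, c6_5_2⟩
    · exact Or.inr ⟨rfl, c6_5_3⟩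
    · exact Or.inr ⟨rfl, c6_5_4⟩
    · exact Or.inl ⟨rfl, rfl⟩
    · exact Or.inr ⟨rfl, c6_5_6⟩
    )]
  rfl

theorem c6_6_0 : T 7 5 [0, 6] (F 6) = 24 := by decide +kernel

theorem c6_6_1 : T 7 5 [1, 6] (F 6) = 19 := by decide +kernel

theorem c6_6_2 : T 7 5 [2, 6] (F 6) = 15 := by decide +kernel

theorem c6_6_3 : T 7 5 [3, 6] (F 6) = 14 := by decide +kernel

theorem c6_6_4 : T 7 5 [4, 6] (F 6) = 13 := by decide +kernel

theorem c6_6_5 : T 7 5 [5, 6] (F 6) = 8 := by decide +kernel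

theorem c6_6 : T 7 6 [6] (F 6) = 93 := by
  rw [step 5 [6] (F 6) ![24, 19, 15, 14, 13, 8, 0] (by
    intro a
    fin_cases a
    · exact Or.inr ⟨rfl, c6_6_0⟩
    · exact Or.inr ⟨rfl, c6_6_1⟩
    · exact Or.inr ⟨rfl, c6_6_2⟩
    · exact Or.inr ⟨rfl, c6_6_3⟩
    · exact Or.inr ⟨rfl, c6_6_4⟩
    · exact Or.inr ⟨rfl, c6_6_5⟩
    · exact Or.inl ⟨rfl, rfl⟩
    )]
  rfl

theorem c6 : T 7 7 [] (F 6) = 792 := by
  rw [step 6 [] (F 6) ![134, 124, 122, 108, 103, 108, 93] (by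
    intro a
    fin_cases a
    · exact Or.inr ⟨rfl, c6_0⟩
    · exact Or.inr ⟨rfl, c6_1⟩
    · exact Or.inr ⟨rfl, c6_2⟩
    · exact Or.inr ⟨rfl, c6_3⟩
    · exact Or.inr ⟨rfl, c6_4⟩
    · exact Or.inr ⟨rfl, c6_5⟩
    · exact Or.inr ⟨rfl, c6_6⟩
    )]
  rfl

end Pool.Agent.V1139.Enum.Agree7
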