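import Mathlib

set_option autoImplicit false

/-! Kernel-friendly enumeration of injective functions `Fin k → Fin m`. -/

namespace Pool.Agent.V1139.Enum

/-- Sum of `F` over all lists obtained from `U` by pushing `k` new distinct elements of
`Fin m`. -/
def T (m : ℕ) : ℕ → List (Fin m) → (List (Fin m) → ℕ) → ℕ
  | 0, U, F => F U
  | k + 1, U, F => ((List.finRange m).map
      (fun a => bif U.any (fun b => Nat.beq b.val a.val) then 0 else T m k (a :: U) F)).sum

/-- The list `[f (k-1), ..., f 0] ++ U`. -/
def L {m : ℕ} : (k : ℕ) → (Fin k → Fin m) → List (Fin m) → List (Fin m)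
  | 0, _, U => U
  | k + 1, f, U => L k (fun i => f i.succ) (f 0 :: U)

/-- `f` is injective and avoids `U`. -/
def Good {m k : ℕ} (f : Fin k → Fin m) (U : List (Fin m)) : Prop :=
  Function.Injective f ∧ ∀ i, f i ∉ U

theorem good_cons {m k : ℕ} (a : Fin m) (g : Fin k → Fin m) (U : List (Fin m)) :
    Good (Fin.cons a g : Fin (k + 1) → Fin m) U ↔ a ∉ U ∧ Good g (a :: U) := by
  unfold Good
  rw [Fin.cons_injective_iff]
  constructor
  · rintro ⟨⟨h1, h2⟩, h3⟩
    refine ⟨by simpa using h3 0, h2, fun i h => ?_⟩
    rcases List.mem_cons.mp h with h | h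
    · exact h1 ⟨i, h⟩
    · exact h3 i.succ (by simpa using h)
  · rintro ⟨h1, h2, h3⟩
    refine ⟨⟨?_, h2⟩, fun i => ?_⟩
    · rintro ⟨i, h⟩
      exact h3 i (by rw [h]; exact List.mem_cons_self)
    · refine Fin.cases ?_ (fun j => ?_) i
      · simpa using h1
      · intro h
        exact h3 j (List.mem_cons_of_mem _ (by simpa using h))

open Classical in
theorem sum_good (m : ℕ) (F : List (Fin m) → ℕ) : ∀ (k : ℕ) (U : List (Fin m)),
    T m k U F = ∑ f : Fin k → Fin m, if Good f U then F (L k f U) else 0
  | 0, U => by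
    rw [Fintype.sum_unique, if_pos]
    · rfl
    · exact ⟨fun i => i.elim0, fun i => i.elim0⟩
  | k + 1, U => by
    rw [T, ← (Fin.consEquiv (fun _ : Fin (k + 1) => Fin m)).sum_comp, Fintype.sum_prod_type,
      ← List.sum_ofFn, List.ofFn_eq_map]
    congr 1
    refine List.map_congr_left (fun a _ => ?_)
    have hmem : U.any (fun b => Nat.beq b.val a.val) = true ↔ a ∈ U := by
      rw [List.any_eq_true]
      constructor
      · rintro ⟨b, hb, hb'⟩
        have : b = a := Fin.ext (Nat.eq_of_beq_eq_true hb')
        exact this ▸ hb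
      · intro ha
        exact ⟨a, ha, by simp⟩
    by_cases h : a ∈ U
    · rw [hmem.mpr h, cond_true]
      symm
      refine Finset.sum_eq_zero (fun g _ => ?_)
      rw [if_neg]
      intro hg
      exact ((good_cons a g U).mp hg).1 h
    · rw [Bool.eq_false_iff.mpr (fun h' => h (hmem.mp h')), cond_false,
        sum_good m F k (a :: U)]
      refine Finset.sum_congr rfl (fun g _ => ?_)
      have e : Good ((Fin.consEquiv (fun _ : Fin (k + 1) => Fin m)) (a, g)) U ↔ Good g (a :: U) :=
        ⟨fun h' => ((good_cons a g U).mp h').2, fun h' => (good_cons a g U).mpr ⟨h, h'⟩⟩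
      by_cases h' : Good g (a :: U)
      · rw [if_pos h', if_pos (e.mpr h')]
        rfl
      · rw [if_neg h', if_neg (fun h'' => h' (e.mp h''))]

open Classical in
/-- Counting permutations of `Fin n` by a property which can be read off the list of values
(in reverse order). -/
theorem card_perm (n : ℕ) (P : Equiv.Perm (Fin n) → Prop) (Q : List (Fin n) → Bool)
    (h : ∀ σ : Equiv.Perm (Fin n), P σ ↔ Q (L n σ []) = true) :
    (Finset.univ.filter (fun σ : Equiv.Perm (Fin n) => P σ)).card
      = T n n [] (fun l => if Q l then 1 else 0) := by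
  rw [sum_good, ← Finset.sum_filter_add_sum_filter_not Finset.univ (fun f => Good f [])]
  rw [Finset.sum_congr rfl (fun f hf => if_pos (Finset.mem_filter.mp hf).2),
    Finset.sum_eq_zero (s := Finset.univ.filter (fun f : Fin n → Fin n => ¬ Good f []))
      (fun f hf => if_neg (Finset.mem_filter.mp hf).2), add_zero, Finset.card_filter]
  refine Finset.sum_bij (fun σ _ => (σ : Fin n → Fin n)) ?_ ?_ ?_ ?_
  · intro σ _
    rw [Finset.mem_filter]
    exact ⟨Finset.mem_univ _, σ.injective, fun i => by simp⟩
  · intro σ _ τ _ h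
    exact DFunLike.coe_injective h
  · intro f hf
    have hf' := (Finset.mem_filter.mp hf).2.1
    exact ⟨Equiv.ofBijective f (Finite.injective_iff_bijective.mp hf'), Finset.mem_univ _, rfl⟩
  · intro σ _
    by_cases hσ : P σ
    · rw [if_pos hσ, if_pos ((h σ).mp hσ)]
    · rw [if_neg hσ, if_neg (fun h' => hσ ((h σ).mpr h'))]

end Pool.Agent.V1139.Enum
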